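import Pool.Agent.Helper98.TA.Stmts
import Pool.Agent.Helper98.TW.Basic

/-!
Row SME of the sheet TA (MP_7a8f48_an): modules of finite rank over saturated algebras.
-/

open MeasureTheory Filter Topology Finset
open scoped ComplexConjugate

namespace Pool.Agent.Helper64.TA

open Pool.Agent.Helper98.TW (SA jo bo cm AM UF BF Sys Lm IA LQ Inc sg Grp SM Sat am_congr
  am_jo_left am_jo_right InH am_mul am_conj)
open Pool.Agent.Helper98.TA
open Pool.Agent.Helper40.TWM (St)

theorem st_SME (hSIN : ST_SIN) (hSMC : ST_SMC) (hABX : ST_ABX) : ST_SME := by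
  intro Ω _ μ _ S S' u A N E hSt hTr hE hSa p hp
  have hinc : ∀ ψ, UF μ ψ → Inc μ E S^[p] ψ → Inc μ E S ψ :=
    hSIN Ω μ S S' u A N E p hSt hTr hE hp (fun ψ h1 h2 h3 => hSa ψ h1 h2 p hp h3)
  refine ⟨hinc, fun n => ?_⟩
  have hsys1 : Sys μ S S' := by simpa using hSt.sys 1
  have hA := ((hABX Ω μ S S' hsys1).2 u A N hTr N p)
  have hEp : IA μ E S^[p] S'^[p] := hE.iterate p
  have hSat : Sat μ E (jo E (A N)) S^[p] (n ^ 2 ^ N) := by
    intro ψ h1 _ h3 M hM _ h4
    exact hSa ψ h1 (hinc ψ h1 h3) M hM h4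
  have hSM := hSMC Ω μ S^[p] S'^[p] E (A N) N n (hSt.sys p) (hSt.erg p hp) hEp hA.2 hSat
  have htop : ∀ f : Ω → ℂ, Measurable f → AM μ (jo E (A N)) f :=
    fun f hf => am_jo_right (hTr.top f hf)
  intro h hUF _ G hG hG0 hIn hRk
  refine hSM h hUF ?_ G hG hG0 ?_ hRk
  · have hm : Measurable (fun x => h (S^[p] x) * conj (h x)) :=
      (hUF.1.comp (hSt.sys p).mp.measurable).mul
        (Complex.continuous_conj.measurable.comp hUF.1)
    exact htop _ hm
  · intro F hF
    have h1 : AM μ (jo E (A N)) h := htop h hUF.1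
    have h2 : AM μ (jo E (A N)) (F : Ω → ℂ) :=
      am_congr (htop _ (Lp.aestronglyMeasurable F).stronglyMeasurable_mk.measurable)
        (Lp.aestronglyMeasurable F).ae_eq_mk.symm
    exact am_mul (am_conj h1) h2

end Pool.Agent.Helper64.TA
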