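import Pool.Agent.Helper98.TA.Stmts
import Pool.Agent.Helper98.TW.Basic

/-!
Row HSM of the sheet TA (MP_7a8f48_an): modules of small rank over the intersections of the hull.
-/

open MeasureTheory Filter Topology Finset
open scoped ComplexConjugate

namespace Pool.Agent.Helper64.TA

open Pool.Agent.Helper98.TW (SA jo bo cm AM UF BF Sys Lm IA LQ Inc sg Grp SM Sat am_congr
  am_jo_left am_jo_right InH lq_jo lq_refl)
open Pool.Agent.Helper98.TA
open Pool.Agent.Helper40.TWM (St)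

theorem st_HSM (hSMC : ST_SMC) (hBMT : ST_BMT) : ST_HSM := by
  intro Ω _ μ _ S S' p q κ D E l n hSt hp hq _ hH hE hAb hn
  have hsys1 : Sys μ S S' := by simpa using hSt.sys 1
  obtain ⟨_, hmt, hia⟩ := hBMT Ω μ S S' D E hsys1 hH.ia.1 hE.1
  have hC : IA μ (mt μ D E) S S' := hia hH.ia hE
  have hCp : IA μ (mt μ D E) S^[p] S'^[p] := hC.iterate p
  have hle : LQ μ (jo (mt μ D E) E) E := lq_jo (fun f hf => ((hmt f).1 hf).2) lq_refl
  have hSat : Sat μ (mt μ D E) (jo (mt μ D E) E) S^[p] (n ^ 2 ^ l) := by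
    intro ψ h1 h2 h3 M hM1 hM2 h4
    have hcop : Nat.Coprime M q := by
      refine (Nat.coprime_comm.1 ?_)
      rw [Nat.Prime.coprime_iff_not_dvd hq]
      intro hd
      have := Nat.le_of_dvd (by omega) hd
      omega
    have h5 : Inc μ D S^[p] ψ := ((hmt _).1 h3).1
    have h6 : AM μ D ψ := hH.c ψ h1 h5 M hM1 hcop ((hmt _).1 h4).1
    exact (hmt ψ).2 ⟨h6, hle ψ h2⟩
  have hSM := hSMC Ω μ S^[p] S'^[p] (mt μ D E) E l n (hSt.sys p) (hSt.erg p hp.one_lt.le) hCp
    (hAb p) hSat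
  intro h hUF hInc G hG hG0 hIn hRk
  exact hSM h hUF (am_jo_right hInc) G hG hG0 (fun F hF => am_jo_right (hIn F hF)) hRk

end Pool.Agent.Helper64.TA
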