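import Pool.Agent.Helper98.TA.Basic
import Pool.Agent.Helper73.TWR.Tool

/-!
Row TST of the sheet TA (MP_7a8f48_an): one step for the masses.
-/

open MeasureTheory Filter Topology Finset
open scoped ComplexConjugate

namespace Pool.Agent.Helper64.TA

open Pool.Agent.Helper98.TW
open Pool.Agent.Helper98.TA
open Pool.Agent.Helper73.TWR (AB ce_am ce_int ce_of_am ce_congr ce_sub ce_memLp ab_const)
open Pool.Agent.Helper40.TWM (St)

section

variable {Ω : Type} [m0 : MeasurableSpace Ω] {μ : Measure Ω} [IsProbabilityMeasure μ]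
  {S S' : Ω → Ω} {u : ℕ → Ω → ℂ} {A : ℕ → SA Ω} {N k : ℕ}

omit [IsProbabilityMeasure μ] in
/-- products of iterates of a bounded function in a class -/
theorem am_prod {E : SA Ω} {φ g : Ω → ℂ} (hS : Sys μ S S') (hE : IA μ E S S') (uφ : UF μ φ)
    (iφ : Inc μ E S φ) (hg : AM μ E (fun x => conj (φ x) * g x)) (m n : ℕ) :
    AM μ E (fun x => g (S^[m] x) * conj (g (S^[n] x))) := by
  have h1 : ∀ m : ℕ, AM μ E (fun x => conj (φ (S^[m] x)) * g (S^[m] x)) :=
    fun m => ((hE.iterate m).2 _ hg).1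
  have h2 : ∀ m : ℕ, AM μ E (fun x => φ (S^[m] x) * conj (φ x)) :=
    fun m => inc_iter hE hS uφ iφ m
  have h3 : ∀ m : ℕ, AM μ E
      (fun x => (φ (S^[m] x) * conj (φ x)) * (conj (φ (S^[m] x)) * g (S^[m] x))) :=
    fun m => am_mul (h2 m) (h1 m)
  refine am_congr (am_mul (h3 m) (am_conj (h3 n))) ?_
  filter_upwards [uφ.mul_conj, ae_comp (hS.iterate m).mp uφ.mul_conj,
    ae_comp (hS.iterate n).mp uφ.mul_conj] with x e0 em en
  simp only [map_mul, Complex.conj_conj]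
  linear_combination (g (S^[m] x) * conj (g (S^[n] x))) *
    ((φ (S^[m] x) * conj (φ (S^[m] x))) * (φ (S^[n] x) * conj (φ (S^[n] x))) * e0 +
      (φ (S^[n] x) * conj (φ (S^[n] x))) * em + en)

/-- one product -/
theorem tv_prod (hTER : ST_TER) (hTKR : ST_TKR) (hTKG : ST_TKG) (hTVC : ST_TVC) (hWAL : ST_WAL)
    (hTCL : ST_TCL) (hSt : St μ S S') (hTr : Tr μ S u A N)
    (h0 : ∀ G : Ω → ℂ, MemLp G 2 μ → AM μ (A k) G → TV μ S S' G) {φ F : Ω → ℂ}
    (hφ : φ ∈ Pw μ (A k) (u k)) (hF : BF F) (hFA : AM μ (A k) F) :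
    TV μ S S' (fun x => φ x * F x) := by
  have hS : Sys μ S S' := Pool.Agent.Helper98.TA.St.s1 hSt
  have hA : IA μ (A k) S S' := hTr.ia hS k
  have uφ : UF μ φ := hφ.1
  have iφ : Inc μ (A k) S φ := inc_Pw hA hS (hTr.uf k) (hTr.inc k) φ hφ
  have hTC := hTCL Ω μ S S' hS
  obtain ⟨G, hG, hGe⟩ := (uφ.ab.mul hF.ab : AB μ fun x => φ x * F x).bf
  have hGA : AM μ (A k) (fun x => conj (φ x) * G x) := by
    refine am_congr hFA ?_
    filter_upwards [hGe, uφ.conj_mul] with x hx hx2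
    rw [hx, ← mul_assoc, hx2, one_mul]
  have hK : IA μ (fr μ S bo) S S' := ia_fr hS (ia_bo hS)
  obtain ⟨e, he⟩ : ∃ e, e = μ[G|fr μ S bo] := ⟨_, rfl⟩
  have heb : AB μ e := he ▸ hG.ab.ce hK.1
  have heA : AM μ (fr μ S bo) e := he ▸ ce_am
  have heφ : AM μ (A k) (fun x => conj (φ x) * e x) := by
    rw [he]
    exact hTKG Ω μ S S' (A k) φ G hSt hA uφ iφ hG hGA
  obtain ⟨g, hg, hge⟩ := (hG.ab.sub heb : AB μ fun x => G x - e x).bf
  have hgA : AM μ (A k) (fun x => conj (φ x) * g x) := by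
    refine am_congr (am_sub hGA heφ) ?_
    filter_upwards [hge] with x hx
    rw [hx]; ring
  have hg0 : μ[g|fr μ S bo] =ᵐ[μ] 0 := by
    have h1 : μ[g|fr μ S bo] =ᵐ[μ] μ[fun x => G x - e x|fr μ S bo] := ce_congr hge
    have h2 := ce_sub (μ := μ) (𝒜 := fr μ S bo) hG.ab.int heb.int
    have h3 := ce_of_am hK.1 heb.int heA
    filter_upwards [h1, h2, h3] with x e1 e2 e3
    rw [e1, e2, e3, he]
    simp
  have hgi : ∫ x, g x ∂μ = 0 := by
    have h1 : ∫ x, (μ[g|fr μ S bo]) x ∂μ = ∫ x, g x ∂μ := integral_condExp hK.1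
    rw [← h1, integral_congr_ae hg0]
    simp
  have hSa : Sa μ S bo := (hTER Ω μ S S' hSt).1
  have hA0 : A0 μ bo S g := by
    have := hWAL Ω μ S S' u A N bo g hSt hTr (ia_bo hS) hSa hg hg0 1 le_rfl
    rwa [Function.iterate_one] at this
  have hgT : TV μ S S' g := by
    refine hTVC Ω μ S S' g hSt hg hgi hA0 fun m n => ?_
    refine h0 _ ?_ (am_prod hS hA uφ iφ hgA m n)
    exact ((hg.ab.comp (hS.iterate m).mp).mul (hg.ab.comp (hS.iterate n).mp).conj).memLp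
  have heT : TV μ S S' e := hTKR Ω μ S S' u A N hSt hTr e heb.memLp heA
  refine hTC.1 _ _ (hTC.2.1 g e hg.ab.memLp heb.memLp hgT heT) ?_
  filter_upwards [hge, hGe] with x hx hx2
  rw [hx, ← hx2]; ring

end

theorem st_TST (hTER : ST_TER) (hTEX : ST_TEX) (hTKR : ST_TKR) (hTKG : ST_TKG) (hTVC : ST_TVC)
    (hWAL : ST_WAL) (hTCL : ST_TCL) : ST_TST := by
  intro Ω _ μ _ S S' u A N k hSt hTr h0 G hG hGA
  have hS : Sys μ S S' := Pool.Agent.Helper98.TA.St.s1 hSt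
  have hA : IA μ (A k) S S' := hTr.ia hS k
  have hTC := hTCL Ω μ S S' hS
  refine hTC.2.2.2.2 G hG fun ε hε => ?_
  rw [hTr.succ k] at hGA
  obtain ⟨m, φ, F, hφ, hF, hd⟩ := hTEX Ω μ (A k) (Pw μ (A k) (u k)) G ε hA.1
    (grp_Pw (hTr.uf k)) hG hGA hε
  have key : ∀ s : Finset (Fin m), MemLp (fun x => ∑ i ∈ s, φ i x * F i x) 2 μ ∧
      TV μ S S' (fun x => ∑ i ∈ s, φ i x * F i x) := by
    intro s
    induction s using Finset.induction_on with
    | empty =>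
      refine ⟨by simpa using (ab_const (μ := μ) 0).memLp, ?_⟩
      simpa using hTC.2.2.2.1 0
    | insert i s hi ih =>
      have h1 : AB μ (fun x => φ i x * F i x) := (hφ i).1.ab.mul (hF i).1.ab
      have h2 := tv_prod hTER hTKR hTKG hTVC hWAL hTCL hSt hTr h0 (hφ i) (hF i).1 (hF i).2
      have e : (fun x => ∑ j ∈ insert i s, φ j x * F j x) =
          fun x => φ i x * F i x + ∑ j ∈ s, φ j x * F j x := by
        funext x
        rw [Finset.sum_insert hi]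
      rw [e]
      exact ⟨h1.memLp.add ih.1, hTC.2.1 _ _ h1.memLp ih.1 h2 ih.2⟩
  exact ⟨_, (key univ).1, (key univ).2, hd⟩

end Pool.Agent.Helper64.TA
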